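import Pool.Agent.H30.ShufC

open Pool.Agent.H30.Shuf

theorem Pool.Agent.Results.MP_435b2a_lc.Undec.result :
    ¬ ∃ f : FA × FA × CM → Bool, Computable f ∧ ∀ (A B : FA) (M : CM), IsDCM M →
      (f (A, B, M) = true ↔ A.lang = shuffle B.lang M.lang) :=
  undec (· = ·) fun _ _ h => ⟨fun e => e.subset, fun h' => Set.Subset.antisymm h' h⟩
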